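import Pool.Agent.H870R2.LS.Main
import Pool.Agent.H870R2.LS.SymC
import Pool.Agent.H870R2.LS.Poly

set_option autoImplicit false

/-! # Local symmetry: P versus NL and NC

A circuit reads a path system on the finite set `V` (which elements are axioms, which rules
`a, b → c` are present) and decides whether the target `t` is derivable (a P-complete problem).
Its gates compute arbitrary functions of the numbers of walks of all lengths in networks whose arcs
are controlled by literals and by other gates.

(1) If the circuit is symmetric on each of `r` disjoint blocks of five elements, then it has at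
least `5 ^ k` gates and nodes as soon as `3000 (d + 1) k ^ 3 (log_5 r + 2) ^ 2 ≤ r`, where `d` is
the rank of the output; for circuits of counting gates `1500 (d + 1) k ^ 2 (log_5 r + 2) ^ 2 ≤ r`
is enough. (2) Every circuit can be made symmetric on `r` blocks at the cost of a
factor `60 ^ r` in size. (3) A circuit of polynomial size with counting gates that is symmetric
under all permutations of the elements fixing `t` decides the problem with rank `2 |V|`. -/

namespace Pool.Agent.Results.MP_47ff19_lc.LocalSymmetry

open Pool.Agent.H870R2.LS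

theorem result :
    (∀ (V Q : Type) [Fintype V] [Fintype Q] (C : Ckt (Inp V) Q) (t : V),
      (∀ x, C.val x C.out = true ↔ Der x t) →
      ∀ (r : ℕ) (blk : Fin r → (Fin 5 ↪ V)),
        (Pairwise fun i j => Disjoint (Set.range (blk i)) (Set.range (blk j))) →
        (∀ i, t ∉ Set.range (blk i)) → (∀ i, C.SymOn (blk i)) →
        ∀ k : ℕ, 1 ≤ k →
          (3000 * (C.rank C.out + 1) * k ^ 3 * (Nat.log 5 r + 2) ^ 2 ≤ r ∨
            (∀ g N N', N 1 = N' 1 → C.F g N = C.F g N') ∧
              1500 * (C.rank C.out + 1) * k ^ 2 * (Nat.log 5 r + 2) ^ 2 ≤ r) →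
          5 ^ k ≤ Fintype.card Q) ∧
    (∀ (V Q : Type) [Fintype V] [Fintype Q] (C : Ckt (Inp V) Q) (t : V),
      (∀ x, C.val x C.out = true ↔ Der x t) →
      ∀ (r : ℕ) (blk : Fin r → (Fin 5 ↪ V)),
        (Pairwise fun i j => Disjoint (Set.range (blk i)) (Set.range (blk j))) →
        (∀ i, t ∉ Set.range (blk i)) →
        ∃ (Q' : Type) (_ : Fintype Q') (C' : Ckt (Inp V) Q'),
          (∀ x, C'.val x C'.out = true ↔ Der x t) ∧ (∀ i, C'.SymOn (blk i)) ∧
          Fintype.card Q' = 60 ^ r * Fintype.card Q + 1 ∧
          C'.rank C'.out = C.rank C.out + 1) ∧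
    (∀ (V : Type) [Fintype V] (t : V),
      ∃ (Q : Type) (_ : Fintype Q) (C : Ckt (Inp V) Q),
        (∀ x, C.val x C.out = true ↔ Der x t) ∧
        (∀ g N N', N 1 = N' 1 → C.F g N = C.F g N') ∧
        (∀ p : Equiv.Perm V, p t = t → ∃ φ, C.IsAut (inpPerm p) φ) ∧
        Fintype.card Q ≤ (Fintype.card V + 1) ^ 4 ∧ C.rank C.out ≤ 2 * Fintype.card V) :=
  ⟨fun _ _ _ _ C t hC r blk hd ht hs k hk hr => hr.elim
      (fun hr => lower C t hC r blk hd ht hs k hk hr)
      (fun hr => lower_count C t hr.1 hC r blk hd ht hs k hk hr.2),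
    fun _ _ _ _ C t hC r blk hd ht => symmetrize C t hC r blk hd ht,
    fun _ _ t => poly t⟩

end Pool.Agent.Results.MP_47ff19_lc.LocalSymmetry
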