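import Mathlib
import Pool.Agent.H540R2.Circ
import Pool.Agent.H540R2.Lift.Defs
import Pool.Agent.H540R2.Lift.NegDefs
import Pool.Agent.H540R2.Lift.WMain

/-!
# Monotone NC is not contained in L (nor in SC) with few NOT gates

There are functions in non-uniform monotone NC (polynomial size, polylogarithmic depth, no NOT
gates) such that every circuit of polynomial (and even quasi-polynomial) size and logarithmic (and
even polylogarithmic) width for them has at least `log n - O(log log n)` NOT gates. Polynomial size
and logarithmic width is the circuit model of non-uniform LOGSPACE.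
-/

set_option autoImplicit false

namespace Pool.Agent.Results.MP_47ff19_lc.NarrowNegations

open Pool.Agent.H540R2

/-- For every `A` there is a function `f` in non-uniform monotone NC such that, for some `c` and
all large `n`, every circuit computing `f n` with at most `2 ^ (log₂ n) ^ A` gates that is layered
of width `w` satisfies `(w * log₂ n) ^ c * 2 ^ (number of NOT gates) ≥ n`. -/
theorem result : ∀ A : ℕ, ∃ f : (n : ℕ) → (Fin n → Bool) → Bool, MonoNC f ∧
    ∃ c n₀ : ℕ, ∀ n ≥ n₀, ∀ (C : Circuit n) (w : ℕ), (∀ x, C.eval x = f n x) →
      C.size ≤ 2 ^ (Nat.log 2 n) ^ A → C.Layered w →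
      n ≤ (w * Nat.log 2 n) ^ c * 2 ^ C.nots :=
  Pool.Agent.H540R2.Lift.monoNC_neg

end Pool.Agent.Results.MP_47ff19_lc.NarrowNegations
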