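import Pool.Agent.H554R2.SemK.Length
import Pool.Agent.H554R2.SemK.Circ

/-!
# Nondeterministic Boolean branching programs of length `(1 + ε) n`

Time-space trade-offs for branching programs computing Boolean functions of `n` bits are known for
deterministic (and randomised) programs: Beame, Jayram and Saks (2001) for length `(1 + ε) n`,
Ajtai (1999) for length `k n`, Jukna (2008) for programs in which at most `ε n` variables are
queried more than once along every accepting computation.  For *nondeterministic* Boolean programs
nothing was known, not even for *semantic read-once* programs, in which no accepting computation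
queries a variable twice (asked by Jukna and Razborov 1998 and in Jukna's book *Boolean Function
Complexity*, 2012); Cook, Edmonds, Medabalimi and Pitassi (2016) prove a lower bound for read-once
programs whose inputs are words over an alphabet with three letters.

We prove an exponential lower bound for nondeterministic Boolean programs in which every accepting
computation may query up to `ε n` variables arbitrarily often and the other ones at most once, or
has length at most `(1 + ε) n`.  This contains the semantic read-once programs.
The function `x ↦ Hard e i0 (a, x)` of `n` bits, and even the function `(a, x) ↦ Hard e i0 (a, x)`,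
have circuits of polynomial size.
-/

set_option autoImplicit false

namespace Pool.Agent.Results.MP_47ff19_lc.NondetTimeSpace

open Pool.Agent.H554R2.Sem

open Classical in
/-- For every `n > 0` there is an identification `e` of `{0,1}ⁿ` with the field with `2 ^ n`
elements such that, for every `i0`, the function `Hard e i0` of `(a, x)` has a Boolean circuit with
at most `100 n ^ 5` gates, but there is a seed `a` such that, for all additional variables `W` with
fixed values `b`, every nondeterministic branching program which accepts exactly the inputs `(b, x)`
with `Hard e i0 (a, x)`, and in each accepting computation of which at most `n / 10 ^ 10` bits of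
`x` are queried more than once, or bits of `x` are queried at most `n + n / 10 ^ 10` times, has at
least `2 ^ ⌊n / 10 ^ 10⌋` nodes. -/
theorem result (n : ℕ) (hn : 0 < n) : ∃ e : Pt n ≃ GaloisField 2 n, ∀ i0 : Fin n,
    HasCircuit (100 * n ^ 5)
      (fun w : (Fin (9 * n ^ 2) × Fin n) ⊕ Fin n → Bool => decide (Hard e i0 w)) ∧
    ∃ a : Fin (9 * n ^ 2) × Fin n → Bool,
      ∀ (W : Type) (b : W → Bool) (P : NBP (W ⊕ Fin n)),
        (∀ x, Hard e i0 (Sum.elim a x) ↔ ∃ l, P.Accepting (Sum.elim b x) l) →
        (∀ x l, P.Accepting (Sum.elim b x) l → (reread P l).card ≤ n / 10 ^ 10 ∨
          (l.filterMap (fun s => xvar (P.query s))).length ≤ n + n / 10 ^ 10) →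
        2 ^ (n / 10 ^ 10) ≤ Fintype.card P.State := by
  obtain ⟨e, he⟩ := hard_circuit n hn
  exact ⟨e, fun i0 => ⟨he i0, mainK' e i0⟩⟩

end Pool.Agent.Results.MP_47ff19_lc.NondetTimeSpace
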