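import Pool.Agent.H564R3.WN.Main
import Pool.Agent.H564R3.WN.WUpper
import Pool.Agent.H564R3.WN.WSmall
import Pool.Agent.H564R3.WN.WNum
import Pool.Agent.H564R3.SV.Good
import Pool.Agent.H564R3.TS.Real

/-!
A problem which pure programs solve in linear time, but not in polynomial time with few registers.
-/

set_option autoImplicit false

namespace Pool.Agent.Results.MP_47ff19_lc.SpaceOfLinearTime

open Finset
open scoped NNReal
open Pool.Agent.H564R3.PW (Instr exec syms)
open Pool.Agent.H564R3.TS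
open Pool.Agent.H564R3.SV (good_trop_sum)
open Pool.Agent.H564R3.WN

/-- The (min,+) program `p`, whose constants are real numbers or infinity, writes into register `o`
the least weight of a word, for all weights of the windows in the natural numbers. -/
def SolvesMin {N k q : ℕ} {ρ : Type} [DecidableEq ρ]
    (p : List (Instr (Tropical (WithTop ℝ)) (WVar N k q) ρ)) (o : ρ) : Prop :=
  ∀ w : WVar N k q → ℕ,
    exec (fun x => Tropical.trop (((w x : ℕ) : ℝ) : WithTop ℝ)) p o =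
      windowSum (fun x => Tropical.trop (((w x : ℕ) : ℝ) : WithTop ℝ))

/-- The program `p` over the nonnegative reals computes the sum over all words of the products of
the weights of their windows. -/
def SolvesSum {N k q : ℕ} {ρ : Type} [DecidableEq ρ]
    (p : List (Instr ℝ≥0 (WVar N k q) ρ)) (o : ρ) : Prop :=
  ∀ w : WVar N k q → ℝ≥0, exec w p o = windowSum w

theorem lowerMin {N k q : ℕ} {ρ : Type} [Fintype ρ] [DecidableEq ρ]
    (p : List (Instr (Tropical (WithTop ℝ)) (WVar N k q) ρ)) (o : ρ) (h : SolvesMin p o)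
    (r : ℕ) (hk : 1 ≤ k) (hq : 1 ≤ q) (hr : 1 ≤ r) (hn : (2 * (r * k) + 1) * 512 ^ r ≤ N) :
    (q ^ k) ^ r ≤ (64 * Fintype.card ρ) ^ r * p.length ^ 2 := by
  classical
  have hN : 1 ≤ N := le_trans (Nat.mul_pos (by omega) (Nat.pow_pos (by norm_num))) hn
  have hne : (univ.image (wset (N := N) (k := k) (q := q))).Nonempty :=
    ⟨wset (fun _ => ⟨0, hq⟩), mem_image_of_mem _ (mem_univ _)⟩
  have hcard : ∀ A ∈ univ.image (wset (N := N) (k := k) (q := q)), A.card = N := by
    intro A hA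
    rw [mem_image] at hA
    obtain ⟨φ, _, rfl⟩ := hA
    exact win_card φ
  obtain ⟨g1, g2⟩ := good_trop_sum _ hne N hcard p o (by
    intro w
    rw [h w, win_sum hN])
  exact win_lower hk hq p o g1 g2 r hr hn

theorem lowerSum {N k q : ℕ} {ρ : Type} [Fintype ρ] [DecidableEq ρ]
    (p : List (Instr ℝ≥0 (WVar N k q) ρ)) (o : ρ) (h : SolvesSum p o)
    (r : ℕ) (hk : 1 ≤ k) (hq : 1 ≤ q) (hr : 1 ≤ r) (hn : (2 * (r * k) + 1) * 512 ^ r ≤ N) :
    (q ^ k) ^ r ≤ (64 * Fintype.card ρ) ^ r * p.length ^ 2 := by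
  classical
  have hN : 1 ≤ N := le_trans (Nat.mul_pos (by omega) (Nat.pow_pos (by norm_num))) hn
  have hcard : ∀ A ∈ univ.image (wset (N := N) (k := k) (q := q)), A.card = N := by
    intro A hA
    rw [mem_image] at hA
    obtain ⟨φ, _, rfl⟩ := hA
    exact win_card φ
  obtain ⟨g1, g2⟩ := good_nn _ N hcard p o (by
    intro w
    rw [h w, win_sum hN])
  exact win_lower hk hq p o g1 g2 r hr hn

/-- **Linear time, but no polynomial time with few registers.** (1) Time-space trade-off for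
programs with `S` registers and `T` instructions. (2) For `N = k ^ 2`, `q = 2` there are
`n = k ^ 2 * 2 ^ (k + 1)` weights, and programs with at most `n ^ c` instructions need
`n ^ (1 - ε)` registers. (3) A program with linearly many instructions. (4) A program with few
registers. -/
theorem result :
    (∀ N k q r : ℕ, 1 ≤ k → 1 ≤ q → 1 ≤ r → (2 * (r * k) + 1) * 512 ^ r ≤ N →
      ∀ (ρ : Type) [Fintype ρ] [DecidableEq ρ],
        (∀ (p : List (Instr (Tropical (WithTop ℝ)) (WVar N k q) ρ)) (o : ρ), SolvesMin p o →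
          (q ^ k) ^ r ≤ (64 * Fintype.card ρ) ^ r * p.length ^ 2) ∧
        (∀ (p : List (Instr ℝ≥0 (WVar N k q) ρ)) (o : ρ), SolvesSum p o →
          (q ^ k) ^ r ≤ (64 * Fintype.card ρ) ^ r * p.length ^ 2)) ∧
    (∀ (c : ℕ) (ε : ℝ), 0 < ε → ∃ k₀ : ℕ, ∀ k ≥ k₀,
      ∀ (n : ℕ), n = Fintype.card (WVar (k ^ 2) k 2) →
      ∀ (ρ : Type) [Fintype ρ] [DecidableEq ρ],
        (∀ (p : List (Instr (Tropical (WithTop ℝ)) (WVar (k ^ 2) k 2) ρ)) (o : ρ),
          SolvesMin p o → (p.length : ℝ) ≤ (n : ℝ) ^ c → (n : ℝ) ^ (1 - ε) ≤ Fintype.card ρ) ∧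
        (∀ (p : List (Instr ℝ≥0 (WVar (k ^ 2) k 2) ρ)) (o : ρ),
          SolvesSum p o → (p.length : ℝ) ≤ (n : ℝ) ^ c → (n : ℝ) ^ (1 - ε) ≤ Fintype.card ρ)) ∧
    (∀ (R : Type) [CommSemiring R] (N k q : ℕ), 1 ≤ N → 1 ≤ k → 1 ≤ q →
      ∃ (ρ : Type) (_ : Fintype ρ) (_ : DecidableEq ρ) (p : List (Instr R (WVar N k q) ρ)) (o : ρ),
        Fintype.card ρ = 2 * q ^ k + 2 ∧ p.length ≤ 8 * Fintype.card (WVar N k q) ∧
        ∀ w : WVar N k q → R, exec w p o = windowSum w) ∧
    (∀ (R : Type) [CommSemiring R] (N k q h : ℕ), 1 ≤ N → 1 ≤ q → N + k ≤ k * 2 ^ h →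
      ∃ (ρ : Type) (_ : Fintype ρ) (_ : DecidableEq ρ) (p : List (Instr R (WVar N k q) ρ)) (o : ρ),
        Fintype.card ρ = 2 * (k * h + k) + 2 ∧
        p.length ≤ (7 * N + 5 * k + 1) * (q ^ k) ^ (h + 1) ∧
        ∀ w : WVar N k q → R, exec w p o = windowSum w) := by
  have hcard : ∀ N k q : ℕ, Fintype.card (WVar N k q) = N * q ^ (k + 1) := by
    intro N k q
    simp [WVar, Fintype.card_prod]
  refine ⟨?_, ?_, ?_, ?_⟩
  · intro N k q r hk hq hr hn ρ _ _
    exact ⟨fun p o h => lowerMin p o h r hk hq hr hn, fun p o h => lowerSum p o h r hk hq hr hn⟩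
  · intro c ε hε
    obtain ⟨k₀, h₀⟩ := win_num c ε hε
    refine ⟨k₀ + 1, fun k hk n hn ρ _ _ => ⟨fun p o h hT => ?_, fun p o h hT => ?_⟩⟩
    · rw [hn, hcard] at hT ⊢
      exact h₀ k (by omega) _ _
        (fun r hr h1 => lowerMin p o h r (by omega) (by norm_num) hr h1) hT
    · rw [hn, hcard] at hT ⊢
      exact h₀ k (by omega) _ _
        (fun r hr h1 => lowerSum p o h r (by omega) (by norm_num) hr h1) hT
  · intro R _ N k q hN hk hq
    rw [hcard]
    exact win_upper N k q hN hk hq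
  · intro R _ N k q h hN hq hN2
    exact win_small k q h hq N hN hN2

end Pool.Agent.Results.MP_47ff19_lc.SpaceOfLinearTime
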